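import Mathlib

/-!
# MP_4bdd60_an, circles: the length-area lemma

`Good Γ a`: the radii `r < δ` such that the circle of radius `r` round `a` meets `Γ` in a countable set have infinite
logarithmic measure. Then a function `k` of finite energy off `K` has a small integral over one such circle.

PROOF of `good_circle`. Let `κ = Kᶜ.indicator k` (measurable: continuous on an open set, `0` off it) and
`L r = ∫⁻ θ in Ioo (-π) π, ‖κ (circleMap a r θ)‖ₑ`. If the claim fails, then `ofReal ε < ofReal r * L r` for all `r` in the set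
`S` of `Good Γ a` for this `δ` (take `δ ≤ 1`). Cauchy-Schwarz: `(L r)^2 ≤ 2 π ∫⁻ θ, ‖κ (circleMap a r θ)‖ₑ^2`. So on `S`:
`ofReal r⁻¹ ≤ C * ofReal r * ∫⁻ θ, ‖κ (circleMap a r θ)‖ₑ ^ 2` with `C = 2 π / ε^2`, and the integral of the right side over
`Ioo 0 δ` is `C` times the integral of `‖κ‖ₑ^2` over `ball a δ` (polar coordinates, `Complex.lintegral_comp_polarCoord_symm`
after a translation), which is finite: `ball a δ ⊆ ball 0 R`. `S` need not be measurable: use `S ⊆ T`, `T` = the measurable set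
of the `r` in `Ioo 0 δ` with `ofReal r⁻¹ ≤ C * ofReal r * ∫⁻ ...` and `lintegral_mono_set`.
-/

set_option autoImplicit false

open Set Filter Topology Metric MeasureTheory
open scoped ENNReal Real

namespace Pool.Agent.H.MP_4bdd60_an.CI

/-- The radii of the circles round `a` which meet `Γ` in a countable set have infinite logarithmic measure. -/
def Good (Γ : Set ℂ) (a : ℂ) : Prop :=
  ∀ δ : ℝ, 0 < δ →
    ∫⁻ r in {r : ℝ | 0 < r ∧ r < δ ∧ (Γ ∩ sphere a r).Countable}, ENNReal.ofReal r⁻¹ = ∞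

private theorem Area_cs {α : Type} [MeasurableSpace α] (μ : Measure α) {f : α → ℝ≥0∞}
    (hf : AEMeasurable f μ) : (∫⁻ x, f x ∂μ) ^ 2 ≤ μ univ * ∫⁻ x, f x ^ 2 ∂μ := by
  have h := ENNReal.lintegral_mul_le_Lp_mul_Lq μ Real.HolderConjugate.two_two hf
    (aemeasurable_const (b := (1 : ℝ≥0∞)))
  simp only [Pi.mul_apply, mul_one, ENNReal.one_rpow, lintegral_const, one_mul] at h
  have h2 : ∀ x : ℝ≥0∞, (x ^ (1 / 2 : ℝ)) ^ 2 = x := by
    intro x
    rw [← ENNReal.rpow_natCast, ← ENNReal.rpow_mul]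
    norm_num
  calc (∫⁻ x, f x ∂μ) ^ 2 ≤ ((∫⁻ a, f a ^ (2 : ℝ) ∂μ) ^ (1 / 2 : ℝ) * μ univ ^ (1 / 2 : ℝ)) ^ 2 :=
        pow_le_pow_left₀ zero_le h 2
    _ = (∫⁻ a, f a ^ (2 : ℝ) ∂μ) * μ univ := by rw [mul_pow, h2, h2]
    _ = μ univ * ∫⁻ x, f x ^ 2 ∂μ := by
        rw [mul_comm]
        congr 1
        refine lintegral_congr fun x => ?_
        rw [← ENNReal.rpow_natCast]; norm_num

private theorem Area_circ (a : ℂ) : Continuous (fun p : ℝ × ℝ => circleMap a p.1 p.2) := by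
  unfold circleMap
  fun_prop

private theorem Area_kappa {k : ℂ → ℂ} {K : Set ℂ} (hK : IsClosed K) (hk : ContinuousOn k Kᶜ) :
    Measurable (Kᶜ.indicator k) := by
  classical
  rw [← Set.piecewise_eq_indicator]
  exact hk.measurable_piecewise continuous_zero.continuousOn hK.isOpen_compl.measurableSet

private theorem Area_polar {κ : ℂ → ℂ} (hκ : Measurable κ) (a : ℂ) (δ : ℝ) :
    ∫⁻ r in Ioo 0 δ, ENNReal.ofReal r * ∫⁻ θ in Ioo (-π) π, ‖κ (circleMap a r θ)‖ₑ ^ 2 ≤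
      ∫⁻ z in ball a δ, ‖κ z‖ₑ ^ 2 := by
  have hF : Measurable
      (fun p : ℝ × ℝ => ENNReal.ofReal p.1 * ‖κ (circleMap a p.1 p.2)‖ₑ ^ 2) :=
    (ENNReal.measurable_ofReal.comp measurable_fst).mul
      ((hκ.comp (Area_circ a).measurable).enorm.pow_const 2)
  calc ∫⁻ r in Ioo 0 δ, ENNReal.ofReal r * ∫⁻ θ in Ioo (-π) π, ‖κ (circleMap a r θ)‖ₑ ^ 2
      = ∫⁻ r in Ioo 0 δ, ∫⁻ θ in Ioo (-π) π,
          ENNReal.ofReal r * ‖κ (circleMap a r θ)‖ₑ ^ 2 := by
        refine lintegral_congr fun r => ?_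
        rw [lintegral_const_mul]
        exact (hκ.comp (continuous_circleMap a r).measurable).enorm.pow_const 2
    _ = ∫⁻ p in Ioo 0 δ ×ˢ Ioo (-π) π,
          ENNReal.ofReal p.1 * ‖κ (circleMap a p.1 p.2)‖ₑ ^ 2 := by
        rw [Measure.volume_eq_prod, ← Measure.prod_restrict, lintegral_prod _ hF.aemeasurable]
    _ ≤ ∫⁻ p in polarCoord.target, ENNReal.ofReal p.1 •
          ((ball a δ).indicator (fun z => ‖κ z‖ₑ ^ 2)) (a + Complex.polarCoord.symm p) := by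
        rw [← lintegral_indicator (measurableSet_Ioo.prod measurableSet_Ioo),
          ← lintegral_indicator polarCoord.open_target.measurableSet]
        refine lintegral_mono fun p => ?_
        by_cases hp : p ∈ Ioo 0 δ ×ˢ Ioo (-π) π
        · have hp' : p ∈ polarCoord.target := by
            rw [polarCoord_target]
            exact ⟨hp.1.1, hp.2⟩
          have e : a + Complex.polarCoord.symm p = circleMap a p.1 p.2 := by
            rw [Complex.polarCoord_symm_apply, circleMap, Complex.exp_mul_I]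
            push_cast
            ring
          have hb : circleMap a p.1 p.2 ∈ ball a δ := by
            rw [mem_ball, Complex.dist_eq, circleMap_sub_center, norm_circleMap_zero,
              abs_of_pos hp.1.1]
            exact hp.1.2
          rw [indicator_of_mem hp, indicator_of_mem hp', e, indicator_of_mem hb, smul_eq_mul]
        · rw [indicator_of_notMem hp]
          exact zero_le
    _ = ∫⁻ z, ((ball a δ).indicator (fun z => ‖κ z‖ₑ ^ 2)) (a + z) :=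
        Complex.lintegral_comp_polarCoord_symm
          fun z => ((ball a δ).indicator (fun z => ‖κ z‖ₑ ^ 2)) (a + z)
    _ = ∫⁻ z, ((ball a δ).indicator (fun z => ‖κ z‖ₑ ^ 2)) z :=
        lintegral_add_left_eq_self _ _
    _ = ∫⁻ z in ball a δ, ‖κ z‖ₑ ^ 2 := lintegral_indicator measurableSet_ball _

theorem good_circle {k : ℂ → ℂ} {K Γ : Set ℂ} {a : ℂ} (hK : IsClosed K) (hk : ContinuousOn k Kᶜ)
    (hfin : ∀ R : ℝ, ∫⁻ z in Kᶜ ∩ ball 0 R, ‖k z‖ₑ ^ 2 < ∞) (hg : Good Γ a) {ε δ : ℝ} (hε : 0 < ε)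
    (hδ : 0 < δ) :
    ∃ r : ℝ, 0 < r ∧ r < δ ∧ (Γ ∩ sphere a r).Countable ∧
      ENNReal.ofReal r * ∫⁻ θ in Ioo (-π) π, ‖Kᶜ.indicator k (circleMap a r θ)‖ₑ ≤
        ENNReal.ofReal ε := by
  by_contra hno
  push Not at hno
  obtain ⟨κ, hκd⟩ : ∃ κ, κ = Kᶜ.indicator k := ⟨_, rfl⟩
  rw [← hκd] at hno
  have hκ : Measurable κ := by
    rw [hκd]
    exact Area_kappa hK hk
  obtain ⟨M, hM⟩ : ∃ M : ℝ → ℝ≥0∞,
      ∀ r, M r = ∫⁻ θ in Ioo (-π) π, ‖κ (circleMap a r θ)‖ₑ ^ 2 := ⟨_, fun _ => rfl⟩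
  have hMm : Measurable M := by
    have h1 : Measurable (fun p : ℝ × ℝ => ‖κ (circleMap a p.1 p.2)‖ₑ ^ 2) :=
      (hκ.comp (Area_circ a).measurable).enorm.pow_const 2
    have h2 := h1.lintegral_prod_right' (ν := volume.restrict (Ioo (-π) π))
    have h3 : M = fun r => ∫⁻ θ in Ioo (-π) π, ‖κ (circleMap a r θ)‖ₑ ^ 2 := funext hM
    rw [h3]
    exact h2
  have hε0 : ENNReal.ofReal ε ^ 2 ≠ 0 := pow_ne_zero 2 (ENNReal.ofReal_pos.2 hε).ne'
  have hεt : ENNReal.ofReal ε ^ 2 ≠ ∞ := ENNReal.pow_ne_top ENNReal.ofReal_ne_top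
  obtain ⟨T, hTd⟩ : ∃ T : Set ℝ, T = {r | ENNReal.ofReal r⁻¹ ≤ (ENNReal.ofReal ε ^ 2)⁻¹ *
      ENNReal.ofReal (2 * π) * (ENNReal.ofReal r * M r)} ∩ Ioo 0 δ := ⟨_, rfl⟩
  have hT : MeasurableSet T := by
    rw [hTd]
    refine (measurableSet_le ?_ ?_).inter measurableSet_Ioo
    · exact ENNReal.measurable_ofReal.comp measurable_inv
    · exact (ENNReal.measurable_ofReal.mul hMm).const_mul _
  have hST : {r : ℝ | 0 < r ∧ r < δ ∧ (Γ ∩ sphere a r).Countable} ⊆ T := by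
    rintro r ⟨h0, h1, h2⟩
    rw [hTd]
    refine ⟨?_, h0, h1⟩
    have h3 := (hno r h0 h1 h2).le
    have h4 : Measurable (fun θ : ℝ => ‖κ (circleMap a r θ)‖ₑ) :=
      (hκ.comp (continuous_circleMap a r).measurable).enorm
    have h5 := Area_cs (volume.restrict (Ioo (-π) π)) h4.aemeasurable
    rw [Measure.restrict_apply_univ, Real.volume_Ioo, ← hM r,
      show π - -π = 2 * π by ring] at h5
    have h6 : ENNReal.ofReal ε ^ 2 ≤ ENNReal.ofReal r ^ 2 * (ENNReal.ofReal (2 * π) * M r) := by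
      refine (pow_le_pow_left₀ zero_le h3 2).trans ?_
      rw [mul_pow]
      exact mul_le_mul' le_rfl h5
    have h7 : ENNReal.ofReal r * ENNReal.ofReal r⁻¹ = 1 := by
      rw [← ENNReal.ofReal_mul h0.le, mul_inv_cancel₀ h0.ne', ENNReal.ofReal_one]
    show ENNReal.ofReal r⁻¹ ≤ _
    calc ENNReal.ofReal r⁻¹ = (ENNReal.ofReal ε ^ 2)⁻¹ *
          (ENNReal.ofReal ε ^ 2 * ENNReal.ofReal r⁻¹) := by
          rw [← mul_assoc, ENNReal.inv_mul_cancel hε0 hεt, one_mul]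
      _ ≤ (ENNReal.ofReal ε ^ 2)⁻¹ * (ENNReal.ofReal r ^ 2 * (ENNReal.ofReal (2 * π) * M r) *
            ENNReal.ofReal r⁻¹) := mul_le_mul' le_rfl (mul_le_mul' h6 le_rfl)
      _ = (ENNReal.ofReal ε ^ 2)⁻¹ * ENNReal.ofReal (2 * π) * (ENNReal.ofReal r * M r) *
            (ENNReal.ofReal r * ENNReal.ofReal r⁻¹) := by ring
      _ = _ := by rw [h7, mul_one]
  have hfin2 : ∫⁻ z in ball a δ, ‖κ z‖ₑ ^ 2 < ∞ := by
    refine lt_of_le_of_lt ?_ (hfin (‖a‖ + δ))
    rw [← lintegral_indicator measurableSet_ball,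
      ← lintegral_indicator (hK.isOpen_compl.measurableSet.inter measurableSet_ball)]
    refine lintegral_mono fun z => ?_
    by_cases hz : z ∈ ball a δ
    · rw [indicator_of_mem hz]
      by_cases hzK : z ∈ Kᶜ
      · have hz2 : z ∈ Kᶜ ∩ ball 0 (‖a‖ + δ) := by
          refine ⟨hzK, ?_⟩
          rw [mem_ball_zero_iff]
          rw [mem_ball, dist_eq_norm] at hz
          calc ‖z‖ = ‖a + (z - a)‖ := by rw [add_sub_cancel]
            _ ≤ ‖a‖ + ‖z - a‖ := norm_add_le _ _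
            _ < ‖a‖ + δ := by linarith
        rw [indicator_of_mem hz2, hκd, indicator_of_mem hzK]
      · rw [hκd, indicator_of_notMem hzK, enorm_zero]
        simp
    · rw [indicator_of_notMem hz]
      exact zero_le
  have hCt : (ENNReal.ofReal ε ^ 2)⁻¹ * ENNReal.ofReal (2 * π) ≠ ∞ :=
    ENNReal.mul_ne_top (ENNReal.inv_ne_top.2 hε0) ENNReal.ofReal_ne_top
  have key : ∫⁻ r in {r : ℝ | 0 < r ∧ r < δ ∧ (Γ ∩ sphere a r).Countable},
      ENNReal.ofReal r⁻¹ < ∞ := by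
    calc ∫⁻ r in {r : ℝ | 0 < r ∧ r < δ ∧ (Γ ∩ sphere a r).Countable}, ENNReal.ofReal r⁻¹
        ≤ ∫⁻ r in T, ENNReal.ofReal r⁻¹ := lintegral_mono_set hST
      _ ≤ ∫⁻ r in T, (ENNReal.ofReal ε ^ 2)⁻¹ * ENNReal.ofReal (2 * π) *
            (ENNReal.ofReal r * M r) := by
          refine setLIntegral_mono' hT fun r hr => ?_
          rw [hTd] at hr
          exact hr.1
      _ ≤ ∫⁻ r in Ioo 0 δ, (ENNReal.ofReal ε ^ 2)⁻¹ * ENNReal.ofReal (2 * π) *
            (ENNReal.ofReal r * M r) := by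
          refine lintegral_mono_set ?_
          rw [hTd]
          exact inter_subset_right
      _ = (ENNReal.ofReal ε ^ 2)⁻¹ * ENNReal.ofReal (2 * π) *
            ∫⁻ r in Ioo 0 δ, ENNReal.ofReal r * M r :=
          lintegral_const_mul _ (ENNReal.measurable_ofReal.mul hMm)
      _ ≤ (ENNReal.ofReal ε ^ 2)⁻¹ * ENNReal.ofReal (2 * π) *
            ∫⁻ z in ball a δ, ‖κ z‖ₑ ^ 2 := by
          refine mul_le_mul' le_rfl (le_trans (le_of_eq ?_) (Area_polar hκ a δ))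
          refine lintegral_congr fun r => ?_
          rw [hM]
      _ < ∞ := ENNReal.mul_lt_top hCt.lt_top hfin2
  rw [hg δ hδ] at key
  exact lt_irrefl _ key

/-- One scale is enough. -/
theorem good_of_one {Γ : Set ℂ} {a : ℂ}
    (h : ∫⁻ r in {r : ℝ | 0 < r ∧ r < 1 ∧ (Γ ∩ sphere a r).Countable}, ENNReal.ofReal r⁻¹ = ∞) :
    Good Γ a := by
  intro δ hδ
  by_contra hne
  have h1 : {r : ℝ | 0 < r ∧ r < 1 ∧ (Γ ∩ sphere a r).Countable} ⊆
      {r : ℝ | 0 < r ∧ r < δ ∧ (Γ ∩ sphere a r).Countable} ∪ Ico δ 1 := by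
    rintro r ⟨h0, h1, h2⟩
    rcases lt_or_ge r δ with h3 | h3
    · exact Or.inl ⟨h0, h3, h2⟩
    · exact Or.inr ⟨h3, h1⟩
  have h2 : ∫⁻ r in Ico δ 1, ENNReal.ofReal r⁻¹ < ∞ := by
    calc ∫⁻ r in Ico δ 1, ENNReal.ofReal r⁻¹ ≤ ∫⁻ _ in Ico δ 1, ENNReal.ofReal δ⁻¹ := by
          refine setLIntegral_mono' measurableSet_Ico fun r hr => ?_
          exact ENNReal.ofReal_le_ofReal (inv_anti₀ hδ hr.1)
      _ = ENNReal.ofReal δ⁻¹ * volume (Ico δ 1) := by
          rw [lintegral_const, Measure.restrict_apply_univ]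
      _ < ∞ := by
          rw [Real.volume_Ico]
          exact ENNReal.mul_lt_top ENNReal.ofReal_lt_top ENNReal.ofReal_lt_top
  have h3 := (lintegral_mono_set (μ := volume) (f := fun r : ℝ => ENNReal.ofReal r⁻¹) h1).trans
    (lintegral_union_le _ _ _)
  rw [h] at h3
  exact (ENNReal.add_lt_top.2 ⟨lt_top_iff_ne_top.2 hne, h2⟩).not_ge h3

end Pool.Agent.H.MP_4bdd60_an.CI
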