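import Pool.Agent.H.MP_4bdd60_an.F2

/-!
# MP_4bdd60_an, circles: the exponential of the multivalued function

PROOF. As `build` in F2.lean: `E z = exp (c0 * Gp (φ⁻¹ z))` on the closed inner domain and `exp (c0 * Gm (χ⁻¹ z))` outside.
Near a point `q` outside the arc `K` one has `E z = exp (c0 * Q z) * const` with a primitive `Q` of `k1` (multiplicative form of
`F2_near`, with `hGp.repK`, `hGm.repK`), near a point outside the arc `L` one has `E z = exp (c0 * Q (f z)) * const` with a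
primitive `Q` of `k2` (`hGp.repL`, `hGm.repL`). The two arcs have only the marked points in common.
-/

set_option autoImplicit false

open Set Filter Topology Metric MeasureTheory
open scoped ENNReal Real

namespace Pool.Agent.H.MP_4bdd60_an.CI

variable {φ χ : ℂ → ℂ} {α β : ℂ} {I J : Set ℂ} {g : ℂ → ℂ} {f : ℂ ≃ₜ ℂ} {k1 k2 Gp Gm : ℂ → ℂ}

/-- one side -/
private theorem be_side {Ψ F G R : ℂ → ℂ} {D T : Set ℂ} {q : ℂ} (hR : ∀ z, R z ≠ 0)
    (inj : InjOn Ψ D) (hinv : ContinuousOn (Function.invFunOn Ψ D) (Ψ '' D))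
    (hcl : IsClosed (Ψ '' D)) (hT : IsClosed T)
    (hF : ∀ w ∈ D \ T, F (Ψ w) = G w)
    (hrep : ∀ w ∈ D \ T, Ψ w = q → ∃ c, ∀ᶠ v in 𝓝[D \ T] w, G v = R (Ψ v) * c)
    (hq : ∀ t ∈ D ∩ T, Ψ t ≠ q) : ∀ᶠ z in 𝓝[Ψ '' D] q, F z = R z * (F q / R q) := by
  by_cases hq' : q ∈ Ψ '' D
  · obtain ⟨w, hw, rfl⟩ := hq'
    have hwT : w ∉ T := fun ht => hq w ⟨hw, ht⟩ rfl
    obtain ⟨c, hc⟩ := hrep w ⟨hw, hwT⟩ rfl
    have hiw : Function.invFunOn Ψ D (Ψ w) = w := inj.leftInvOn_invFunOn hw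
    have h1 : Tendsto (Function.invFunOn Ψ D) (𝓝[Ψ '' D] (Ψ w)) (𝓝 w) := by
      have := hinv (Ψ w) ⟨w, hw, rfl⟩
      unfold ContinuousWithinAt at this
      rwa [hiw] at this
    have h2 : ∀ᶠ z in 𝓝[Ψ '' D] (Ψ w), Function.invFunOn Ψ D z ∈ D \ T := by
      have h3 : ∀ᶠ z in 𝓝[Ψ '' D] (Ψ w), Function.invFunOn Ψ D z ∈ Tᶜ :=
        h1.eventually (hT.isOpen_compl.mem_nhds hwT)
      filter_upwards [h3, self_mem_nhdsWithin] with z hz1 hz2
      exact ⟨Function.invFunOn_mem hz2, hz1⟩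
    have h4 : Tendsto (Function.invFunOn Ψ D) (𝓝[Ψ '' D] (Ψ w)) (𝓝[D \ T] w) :=
      tendsto_nhdsWithin_iff.2 ⟨h1, h2⟩
    have h5 : ∀ᶠ z in 𝓝[Ψ '' D] (Ψ w), F z = R z * c := by
      filter_upwards [h4.eventually hc, h2, self_mem_nhdsWithin] with z hz1 hz2 hz3
      have h6 : Ψ (Function.invFunOn Ψ D z) = z := Function.invFunOn_eq hz3
      have h7 := hF _ hz2
      rw [h6] at h7
      rw [h6] at hz1
      rw [h7, hz1]
    have h8 : F (Ψ w) = R (Ψ w) * c := h5.self_of_nhdsWithin ⟨w, hw, rfl⟩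
    filter_upwards [h5] with z hz
    rw [hz, h8, mul_div_cancel_left₀ _ (hR (Ψ w))]
  · rw [eventually_nhdsWithin_iff]
    filter_upwards [hcl.isOpen_compl.mem_nhds hq'] with z hz hz'
    exact absurd hz' hz

/-- both sides -/
private theorem be_near (h : Marked φ χ α β I J g) {F Gp Gm R : ℂ → ℂ} {q : ℂ}
    (hR : ∀ z, R z ≠ 0)
    (hFp : ∀ w ∈ closedBall (0 : ℂ) 1 \ {α, β}, F (φ w) = Gp w)
    (hFm : ∀ u ∈ closedBall (0 : ℂ) 1 \ {0, g α, g β}, F (χ u) = Gm u)
    (ha : q ≠ φ α) (hb : q ≠ φ β)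
    (hP : ∀ w ∈ closedBall (0 : ℂ) 1 \ (∅ ∪ {α, β}), φ w = q →
      ∃ c, ∀ᶠ v in 𝓝[closedBall 0 1 \ (∅ ∪ {α, β})] w, Gp v = R (φ v) * c)
    (hM : ∀ u ∈ closedBall (0 : ℂ) 1 \ ({0} ∪ {g α, g β}), χ u = q →
      ∃ c, ∀ᶠ v in 𝓝[closedBall 0 1 \ ({0} ∪ {g α, g β})] u, Gm v = R (χ v) * c) :
    ∀ᶠ z in 𝓝 q, F z = R z * (F q / R q) := by
  have hc := h.toCurve
  have c1 : IsClosed (φ '' closedBall 0 1) := (closed_p hc isClosed_closedBall subset_rfl).isClosed
  have c2 : IsClosed (χ '' (closedBall 0 1 \ {0})) := closed_m hc isClosed_closedBall subset_rfl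
  rw [empty_union] at hP
  have t1 : IsClosed ({α, β} : Set ℂ) := (toFinite _).isClosed
  have t2 : IsClosed ({g α, g β} : Set ℂ) := (toFinite _).isClosed
  have e1 : closedBall (0 : ℂ) 1 \ ({0} ∪ {g α, g β}) = (closedBall (0 : ℂ) 1 \ {0}) \ {g α, g β} := by
    ext z
    simp only [Set.mem_sdiff, mem_union, not_or, and_assoc]
  have s1 := be_side (Ψ := φ) (F := F) (G := Gp) (R := R) (q := q) hR hc.φ_inj (inv_p hc) c1 t1
    hFp hP
    (by
      rintro t ⟨_, ht⟩ e
      rcases ht with rfl | rfl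
      · exact ha e.symm
      · exact hb e.symm)
  have s2 := be_side (Ψ := χ) (F := F) (G := Gm) (R := R) (q := q) hR hc.χ_inj (inv_m hc) c2 t2
    (by
      rw [← e1]
      exact hFm)
    (by
      rw [← e1]
      exact hM)
    (by
      rintro t ⟨_, ht⟩ e
      rcases ht with rfl | rfl
      · exact ha (by rw [← h.g_eq α h.α_mem, e])
      · exact hb (by rw [← h.g_eq β h.β_mem, e]))
  have s3 : ∀ᶠ z in 𝓝[φ '' closedBall 0 1 ∪ χ '' (closedBall 0 1 \ {0})] q,
      F z = R z * (F q / R q) := by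
    rw [nhdsWithin_union]
    exact Filter.eventually_sup.2 ⟨s1, s2⟩
  rw [hc.cover, nhdsWithin_univ] at s3
  exact s3

theorem buildE (h : Marked φ χ α β I J g)
    (hF : Form (arc φ I α β) (arc φ J α β) f k1 k2)
    (hGp : Prim φ ∅ {α, β} (arc φ I α β) (arc φ J α β) f k1 k2 Gp)
    (hGm : Prim χ {0} {g α, g β} (arc φ I α β) (arc φ J α β) f k1 k2 Gm) {c0 : ℂ}
    (hg : ∀ z ∈ sphere (0 : ℂ) 1 \ {α, β}, Complex.exp (c0 * Gp z) = Complex.exp (c0 * Gm (g z))) :
    ∃ E : ℂ → ℂ, (∀ w ∈ closedBall (0 : ℂ) 1 \ {α, β}, E (φ w) = Complex.exp (c0 * Gp w)) ∧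
      (∀ u ∈ closedBall (0 : ℂ) 1 \ {0, g α, g β}, E (χ u) = Complex.exp (c0 * Gm u)) ∧
      (∀ z, E z ≠ 0) ∧ ContinuousOn E {φ α, φ β}ᶜ ∧
      (∀ z, z ∉ φ '' sphere 0 1 → HasDerivAt E (c0 * k1 z * E z) z) := by
  classical
  have hc := h.toCurve
  have hKc : IsClosed (arc φ I α β) := (isCompact_arcI h).isClosed
  have hLc : IsClosed (arc φ J α β) := (isCompact_arcJ h).isClosed
  have aK : φ α ∈ arc φ I α β := ⟨α, Or.inr (Or.inl rfl), rfl⟩
  have bK : φ β ∈ arc φ I α β := ⟨β, Or.inr (Or.inr rfl), rfl⟩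
  have aL : φ α ∈ arc φ J α β := ⟨α, Or.inr (Or.inl rfl), rfl⟩
  have bL : φ β ∈ arc φ J α β := ⟨β, Or.inr (Or.inr rfl), rfl⟩
  have hIs : I ∪ {α, β} ⊆ sphere (0 : ℂ) 1 := by
    rw [← h.union]
    rintro z (hz | hz)
    · exact Or.inl (Or.inl hz)
    · exact Or.inr hz
  let F : ℂ → ℂ := fun z => if z ∈ φ '' closedBall 0 1 then
      Complex.exp (c0 * Gp (Function.invFunOn φ (closedBall 0 1) z))
    else Complex.exp (c0 * Gm (Function.invFunOn χ (closedBall 0 1 \ {0}) z))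
  have hF0 : ∀ z, F z ≠ 0 := by
    intro z
    show (if z ∈ φ '' closedBall 0 1 then
      Complex.exp (c0 * Gp (Function.invFunOn φ (closedBall 0 1) z))
      else Complex.exp (c0 * Gm (Function.invFunOn χ (closedBall 0 1 \ {0}) z))) ≠ 0
    split_ifs <;> exact Complex.exp_ne_zero _
  have hFp : ∀ w ∈ closedBall (0 : ℂ) 1 \ {α, β}, F (φ w) = Complex.exp (c0 * Gp w) := by
    rintro w ⟨hw, _⟩
    have h1 : φ w ∈ φ '' closedBall 0 1 := ⟨w, hw, rfl⟩
    show (if φ w ∈ φ '' closedBall 0 1 then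
      Complex.exp (c0 * Gp (Function.invFunOn φ (closedBall 0 1) (φ w)))
      else Complex.exp (c0 * Gm (Function.invFunOn χ (closedBall 0 1 \ {0}) (φ w)))) = _
    rw [if_pos h1, hc.φ_inj.leftInvOn_invFunOn hw]
  have hFm : ∀ u ∈ closedBall (0 : ℂ) 1 \ {0, g α, g β}, F (χ u) = Complex.exp (c0 * Gm u) := by
    rintro u ⟨hu, hu2⟩
    have hu0 : u ≠ 0 := fun e => hu2 (Or.inl e)
    have hua : u ≠ g α := fun e => hu2 (Or.inr (Or.inl e))
    have hub : u ≠ g β := fun e => hu2 (Or.inr (Or.inr e))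
    by_cases h1 : χ u ∈ φ '' closedBall 0 1
    · have hus : u ∈ sphere (0 : ℂ) 1 := by
        by_contra hns
        have h2 : u ∈ ball (0 : ℂ) 1 \ {0} := by
          refine ⟨?_, hu0⟩
          rw [mem_closedBall] at hu
          rw [mem_sphere] at hns
          exact mem_ball.2 (lt_of_le_of_ne hu hns)
        exact m_int h h2 h1
      obtain ⟨w, hw, hwu⟩ := h1
      have hws : w ∈ sphere (0 : ℂ) 1 := by
        by_contra hns
        have h2 : w ∈ ball (0 : ℂ) 1 := by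
          rw [mem_closedBall] at hw
          rw [mem_sphere] at hns
          exact mem_ball.2 (lt_of_le_of_ne hw hns)
        apply p_int h h2
        rw [hc.bdry, hwu]
        exact ⟨u, hus, rfl⟩
      have hug : u = g w := g_of_eq h hws hus hwu
      have hwa : w ≠ α := fun e => hua (e ▸ hug)
      have hwb : w ≠ β := fun e => hub (e ▸ hug)
      have hwab : w ∉ ({α, β} : Set ℂ) := by
        rintro (e | e)
        · exact hwa e
        · exact hwb e
      rw [← hwu, hFp w ⟨hw, hwab⟩, hg w ⟨hws, hwab⟩, ← hug]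
    · show (if χ u ∈ φ '' closedBall 0 1 then
        Complex.exp (c0 * Gp (Function.invFunOn φ (closedBall 0 1) (χ u)))
        else Complex.exp (c0 * Gm (Function.invFunOn χ (closedBall 0 1 \ {0}) (χ u)))) = _
      rw [if_neg h1, hc.χ_inj.leftInvOn_invFunOn ⟨hu, hu0⟩]
  have hmul : ∀ (G R : ℂ → ℂ) (S : Set ℂ) (w : ℂ), (∃ c, ∀ᶠ v in 𝓝[S] w, G v = R v + c) →
      ∃ c, ∀ᶠ v in 𝓝[S] w, Complex.exp (c0 * G v) = Complex.exp (c0 * R v) * c := by
    rintro G R S w ⟨c, hc'⟩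
    refine ⟨Complex.exp (c0 * c), ?_⟩
    filter_upwards [hc'] with v hv
    rw [hv, mul_add, Complex.exp_add]
  have hderK : ∀ q, q ∉ arc φ I α β → HasDerivAt F (c0 * k1 q * F q) q := by
    intro q hq
    have hqa : q ≠ φ α := fun e => hq (e ▸ aK)
    have hqb : q ≠ φ β := fun e => hq (e ▸ bK)
    obtain ⟨ε, hε, hb⟩ := Metric.isOpen_iff.1 hKc.isOpen_compl q hq
    obtain ⟨Q, hQ⟩ := (hF.hol1.mono hb).isExactOn_ball
    have hQ' : ∀ᶠ z in 𝓝 q, HasDerivAt Q (k1 z) z := by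
      filter_upwards [ball_mem_nhds q hε] with z hz
      exact hQ z hz
    have key := be_near (q := q) (R := fun z => Complex.exp (c0 * Q z)) h
      (fun z => Complex.exp_ne_zero _) hFp hFm hqa hqb
      (fun w hw e => hmul Gp (fun v => Q (φ v)) _ w
        (hGp.repK w hw (by rw [e]; exact hq) Q (by rw [e]; exact hQ')))
      (fun u hu e => hmul Gm (fun v => Q (χ v)) _ u
        (hGm.repK u hu (by rw [e]; exact hq) Q (by rw [e]; exact hQ')))
    have h1 : HasDerivAt (fun z => Complex.exp (c0 * Q z) * (F q / Complex.exp (c0 * Q q)))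
        (Complex.exp (c0 * Q q) * (c0 * k1 q) * (F q / Complex.exp (c0 * Q q))) q :=
      (((hQ q (mem_ball_self hε)).const_mul c0).cexp).mul_const _
    have h2 : Complex.exp (c0 * Q q) * (c0 * k1 q) * (F q / Complex.exp (c0 * Q q)) =
        c0 * k1 q * F q := by
      field_simp [Complex.exp_ne_zero]
    rw [h2] at h1
    exact h1.congr_of_eventuallyEq key
  have hconL : ∀ q, q ∉ arc φ J α β → ContinuousAt F q := by
    intro q hq
    have hqa : q ≠ φ α := fun e => hq (e ▸ aL)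
    have hqb : q ≠ φ β := fun e => hq (e ▸ bL)
    have ho : IsOpen (f '' (arc φ J α β)ᶜ) := f.isOpenMap _ hLc.isOpen_compl
    obtain ⟨ε, hε, hb⟩ := Metric.isOpen_iff.1 ho (f q) ⟨q, hq, rfl⟩
    obtain ⟨Q, hQ⟩ := (hF.hol2.mono hb).isExactOn_ball
    have hQ' : ∀ᶠ z in 𝓝 (f q), HasDerivAt Q (k2 z) z := by
      filter_upwards [ball_mem_nhds (f q) hε] with z hz
      exact hQ z hz
    have key := be_near (q := q) (R := fun z => Complex.exp (c0 * Q (f z))) h
      (fun z => Complex.exp_ne_zero _) hFp hFm hqa hqb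
      (fun w hw e => hmul Gp (fun v => Q (f (φ v))) _ w
        (hGp.repL w hw (by rw [e]; exact hq) Q (by rw [e]; exact hQ')))
      (fun u hu e => hmul Gm (fun v => Q (f (χ v))) _ u
        (hGm.repL u hu (by rw [e]; exact hq) Q (by rw [e]; exact hQ')))
    have h1 : ContinuousAt (fun z => Q (f z)) q :=
      ContinuousAt.comp (g := Q) (f := f) (hQ (f q) (mem_ball_self hε)).continuousAt
        f.continuous.continuousAt
    have h2 : ContinuousAt
        (fun z => Complex.exp (c0 * Q (f z)) * (F q / Complex.exp (c0 * Q (f q)))) q :=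
      ((continuousAt_const.mul h1).cexp).mul continuousAt_const
    exact h2.congr (key.mono fun z hz => hz.symm)
  refine ⟨F, hFp, hFm, hF0, ?_, ?_⟩
  · intro q hq
    apply ContinuousAt.continuousWithinAt
    by_cases hK : q ∈ arc φ I α β
    · apply hconL
      rintro ⟨w', hw', e'⟩
      obtain ⟨w, hw, rfl⟩ := hK
      have hJs : w' ∈ sphere (0 : ℂ) 1 := by
        rw [← h.union]
        rcases hw' with hz | hz
        · exact Or.inl (Or.inr hz)
        · exact Or.inr hz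
      have e2 : w' = w := hc.φ_inj (sphere_subset_closedBall hJs)
        (sphere_subset_closedBall (hIs hw)) e'
      subst e2
      have hnab : w' ∉ ({α, β} : Set ℂ) := by
        rintro (e | e)
        · exact hq (Or.inl (by rw [e]))
        · exact hq (Or.inr (by rw [mem_singleton_iff] at e; rw [e]; rfl))
      rcases hw with hw | hw
      · rcases hw' with hw2 | hw2
        · exact Set.disjoint_left.1 h.IJ hw hw2
        · exact hnab hw2
      · exact hnab hw
    · exact (hderK q hK).continuousAt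
  · intro z hz
    apply hderK
    rintro ⟨w, hw, rfl⟩
    exact hz ⟨w, hIs hw, rfl⟩

end Pool.Agent.H.MP_4bdd60_an.CI
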