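import Mathlib

/-!
# MP_4bdd60_an, circles: variation on a circle

PROOF. Put `s(θ) = circleMap a r θ`, `κ θ = Kᶜ.indicator k (s θ) * deriv s θ`, `‖deriv s θ‖ = r`. `κ` is integrable on
`Ioo (-π) π` (`Kᶜ.indicator k` is measurable: continuous on an open set, `0` off it; the bound `hi`). The exceptional set
`{θ ∈ Icc (-π) π | s θ ∈ Γ}` is countable (`s` is injective on `Ioc (-π) π`). `circ_F`: `F (s y) - F (s x) = ∫ κ` over `x..y`
for `x ≤ y` in `Icc (-π) π` by the fundamental theorem of calculus off a countable set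
(`MeasureTheory.integral_eq_of_hasDerivAt_off_countable` / `intervalIntegral.integral_eq_sub_of_hasDerivAt...`), and
`‖∫ κ‖ ≤ ε`. `circ_E`: apply the same theorem (derivative `0`) to `E (s θ) * exp (- c * ∫ κ over -π..θ)`; `κ` is continuous at
every `θ` with `s θ ∉ Γ` (`Γ ⊇ K`, `K` closed).
-/

set_option autoImplicit false

open Set Filter Topology Metric MeasureTheory
open scoped ENNReal Real

namespace Pool.Agent.H.MP_4bdd60_an.CI

private noncomputable def Circ_kap (k : ℂ → ℂ) (K : Set ℂ) (a : ℂ) (r : ℝ) (θ : ℝ) : ℂ :=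
  Kᶜ.indicator k (circleMap a r θ) * (circleMap 0 r θ * Complex.I)

private theorem Circ_meas {k : ℂ → ℂ} {K : Set ℂ} (a : ℂ) (r : ℝ) (hK : IsClosed K)
    (hk : ContinuousOn k Kᶜ) : Measurable (Circ_kap k K a r) := by
  classical
  have h1 : Measurable (Kᶜ.indicator k) := by
    rw [← Set.piecewise_eq_indicator]
    exact hk.measurable_piecewise continuousOn_const hK.isOpen_compl.measurableSet
  unfold Circ_kap
  exact (h1.comp (continuous_circleMap a r).measurable).mul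
    ((continuous_circleMap 0 r).measurable.mul_const _)

private theorem Circ_lint {k : ℂ → ℂ} {K : Set ℂ} {a : ℂ} {r ε : ℝ} (hr : 0 < r)
    (hi : ENNReal.ofReal r * ∫⁻ θ in Ioo (-π) π, ‖Kᶜ.indicator k (circleMap a r θ)‖ₑ ≤
        ENNReal.ofReal ε) :
    ∫⁻ θ in Ioc (-π) π, ‖Circ_kap k K a r θ‖ₑ ≤ ENNReal.ofReal ε := by
  refine le_trans (le_of_eq ?_) hi
  rw [← lintegral_const_mul' _ _ ENNReal.ofReal_ne_top, setLIntegral_congr Ioo_ae_eq_Ioc.symm]
  refine lintegral_congr fun θ => ?_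
  unfold Circ_kap
  rw [enorm_mul, mul_comm]
  congr 1
  rw [← ofReal_norm, norm_mul, Complex.norm_I, mul_one, norm_circleMap_zero, abs_of_pos hr]

private theorem Circ_int {k : ℂ → ℂ} {K : Set ℂ} {a : ℂ} {r ε : ℝ} (hr : 0 < r)
    (hK : IsClosed K) (hk : ContinuousOn k Kᶜ)
    (hi : ENNReal.ofReal r * ∫⁻ θ in Ioo (-π) π, ‖Kᶜ.indicator k (circleMap a r θ)‖ₑ ≤
        ENNReal.ofReal ε) :
    IntegrableOn (Circ_kap k K a r) (Ioc (-π) π) :=
  ⟨(Circ_meas a r hK hk).aestronglyMeasurable,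
    (Circ_lint hr hi).trans_lt ENNReal.ofReal_lt_top⟩

private theorem Circ_ii {k : ℂ → ℂ} {K : Set ℂ} {a : ℂ} {r ε : ℝ} (hr : 0 < r)
    (hK : IsClosed K) (hk : ContinuousOn k Kᶜ)
    (hi : ENNReal.ofReal r * ∫⁻ θ in Ioo (-π) π, ‖Kᶜ.indicator k (circleMap a r θ)‖ₑ ≤
        ENNReal.ofReal ε) {x y : ℝ} (hx : x ∈ Icc (-π) π) (hy : y ∈ Icc (-π) π) :
    IntervalIntegrable (Circ_kap k K a r) volume x y := by
  rw [intervalIntegrable_iff]
  exact (Circ_int hr hK hk hi).mono_set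
    (Ioc_subset_Ioc (le_min hx.1 hy.1) (max_le hx.2 hy.2))

private theorem Circ_bd {k : ℂ → ℂ} {K : Set ℂ} {a : ℂ} {r ε : ℝ} (hr : 0 < r) (hε : 0 ≤ ε)
    (hK : IsClosed K) (hk : ContinuousOn k Kᶜ)
    (hi : ENNReal.ofReal r * ∫⁻ θ in Ioo (-π) π, ‖Kᶜ.indicator k (circleMap a r θ)‖ₑ ≤
        ENNReal.ofReal ε) {x y : ℝ} (hx : x ∈ Icc (-π) π) (hy : y ∈ Icc (-π) π) :
    ‖∫ θ in x..y, Circ_kap k K a r θ‖ ≤ ε := by
  have h1 := (Circ_int hr hK hk hi)
  calc ‖∫ θ in x..y, Circ_kap k K a r θ‖ ≤ ∫ θ in uIoc x y, ‖Circ_kap k K a r θ‖ :=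
        intervalIntegral.norm_integral_le_integral_norm_uIoc
    _ ≤ ∫ θ in Ioc (-π) π, ‖Circ_kap k K a r θ‖ := by
        refine setIntegral_mono_set h1.norm (Eventually.of_forall fun θ => norm_nonneg _) ?_
        exact (Ioc_subset_Ioc (le_min hx.1 hy.1) (max_le hx.2 hy.2)).eventuallyLE
    _ = (∫⁻ θ in Ioc (-π) π, ‖Circ_kap k K a r θ‖ₑ).toReal :=
        integral_norm_eq_lintegral_enorm h1.aestronglyMeasurable
    _ ≤ ε := ENNReal.toReal_le_of_le_ofReal hε (Circ_lint hr hi)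

private theorem Circ_exc {Γ : Set ℂ} {a : ℂ} {r : ℝ} (hr : 0 < r)
    (hc : (Γ ∩ sphere a r).Countable) : (circleMap a r ⁻¹' Γ).Countable := by
  refine (hc.preimage_circleMap a hr.ne').mono ?_
  intro θ hθ
  exact ⟨hθ, circleMap_mem_sphere a hr.le θ⟩

private theorem Circ_par {a : ℂ} {r : ℝ} (hr : 0 < r) {z : ℂ} (hz : z ∈ sphere a r) :
    ∃ θ ∈ Icc (-π) π, circleMap a r θ = z := by
  have h1 : circleMap a r '' Ioc (-π) (-π + 2 * π) = range (circleMap a r) :=
    (periodic_circleMap a r).image_Ioc Real.two_pi_pos (-π)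
  rw [range_circleMap, abs_of_pos hr] at h1
  rw [← h1] at hz
  obtain ⟨θ, hθ, he⟩ := hz
  exact ⟨θ, ⟨hθ.1.le, hθ.2.trans (by linarith)⟩, he⟩

private theorem Circ_der {F k : ℂ → ℂ} {K Γ : Set ℂ} {a : ℂ} {r : ℝ} {d : ℂ} (hr : 0 < r)
    (hKΓ : K ⊆ Γ) {θ : ℝ} (hθ : circleMap a r θ ∉ Γ)
    (hd : ∀ z ∈ sphere a r, z ∉ Γ → HasDerivAt F (d * k z) z) :
    HasDerivAt (fun θ => F (circleMap a r θ)) (d * Circ_kap k K a r θ) θ := by
  have h1 := hd (circleMap a r θ) (circleMap_mem_sphere a hr.le θ) hθ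
  have h2 := h1.scomp θ (hasDerivAt_circleMap a r θ)
  have h3 : d * Circ_kap k K a r θ =
      (circleMap 0 r θ * Complex.I) • (d * k (circleMap a r θ)) := by
    unfold Circ_kap
    rw [indicator_of_mem (show circleMap a r θ ∈ Kᶜ from fun h => hθ (hKΓ h)), smul_eq_mul]
    ring
  rw [h3]
  exact h2

theorem circ_E {E k : ℂ → ℂ} {K Γ : Set ℂ} {a c : ℂ} {r ε : ℝ} (hr : 0 < r) (hε : 0 ≤ ε) (hKΓ : K ⊆ Γ)
    (hK : IsClosed K) (hk : ContinuousOn k Kᶜ) (hc : (Γ ∩ sphere a r).Countable)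
    (hE : ContinuousOn E (sphere a r))
    (hd : ∀ z ∈ sphere a r, z ∉ Γ → HasDerivAt E (c * k z * E z) z)
    (hi : ENNReal.ofReal r * ∫⁻ θ in Ioo (-π) π, ‖Kᶜ.indicator k (circleMap a r θ)‖ₑ ≤
        ENNReal.ofReal ε) :
    ∀ z ∈ sphere a r, ∀ w ∈ sphere a r, ∃ u : ℂ, ‖u‖ ≤ ‖c‖ * ε ∧ E z = E w * Complex.exp u := by
  have hexc := Circ_exc hr hc
  have hcs : ContinuousOn (fun θ : ℝ => E (circleMap a r θ)) univ :=
    hE.comp (continuous_circleMap a r).continuousOn
      fun θ _ => circleMap_mem_sphere a hr.le θ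
  have hpi : (-π : ℝ) ∈ Icc (-π) π := ⟨le_rfl, by linarith [Real.pi_pos]⟩
  have hpi2 : (π : ℝ) ∈ Icc (-π) π := ⟨by linarith [Real.pi_pos], le_rfl⟩
  set G : ℝ → ℂ := fun θ => ∫ t in (-π)..θ, Circ_kap k K a r t with hG
  have hGc : ContinuousOn G (Icc (-π) π) := by
    have h1 := intervalIntegral.continuousOn_primitive_interval'
      (Circ_ii hr hK hk hi hpi hpi2) (left_mem_uIcc : (-π) ∈ uIcc (-π) π)
    rwa [uIcc_of_le (by linarith [Real.pi_pos])] at h1
  have hGd : ∀ θ ∈ Icc (-π) π, circleMap a r θ ∉ Γ →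
      HasDerivAt G (Circ_kap k K a r θ) θ := by
    intro θ hθ hθΓ
    refine intervalIntegral.integral_hasDerivAt_right (Circ_ii hr hK hk hi hpi hθ)
      (Circ_meas a r hK hk).stronglyMeasurable.aestronglyMeasurable.stronglyMeasurableAtFilter ?_
    have h1 : circleMap a r θ ∈ Kᶜ := fun h => hθΓ (hKΓ h)
    have h2 : ContinuousAt (Kᶜ.indicator k) (circleMap a r θ) := by
      refine (hk.continuousAt (hK.isOpen_compl.mem_nhds h1)).congr ?_
      filter_upwards [hK.isOpen_compl.mem_nhds h1] with z hz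
      rw [indicator_of_mem hz]
    unfold Circ_kap
    exact (ContinuousAt.comp (f := circleMap a r) h2 (continuous_circleMap a r).continuousAt).mul
      ((continuous_circleMap 0 r).continuousAt.mul continuousAt_const)
  have hconst : ∀ x ∈ Icc (-π) π, ∀ y ∈ Icc (-π) π,
      E (circleMap a r y) * Complex.exp (-(c * G y)) =
        E (circleMap a r x) * Complex.exp (-(c * G x)) := by
    intro x hx y hy
    have hsub : uIcc x y ⊆ Icc (-π) π := Icc_subset_Icc (le_min hx.1 hy.1) (max_le hx.2 hy.2)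
    have h1 := integral_eq_of_hasDerivAt_off_countable
      (fun θ => E (circleMap a r θ) * Complex.exp (-(c * G θ))) (fun _ => (0 : ℂ))
      (a := x) (b := y) hexc ?_ ?_ ?_
    · rw [intervalIntegral.integral_zero] at h1
      exact (sub_eq_zero.1 h1.symm)
    · refine (hcs.mono (subset_univ _)).mul ?_
      exact Complex.continuous_exp.comp_continuousOn
        ((continuousOn_const.mul (hGc.mono hsub)).neg)
    · intro θ hθ
      have hθI : θ ∈ Icc (-π) π := hsub (Ioo_subset_Icc_self hθ.1)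
      have h2 := hGd θ hθI hθ.2
      have h3 := hd (circleMap a r θ) (circleMap_mem_sphere a hr.le θ) hθ.2
      have h4 := h3.scomp θ (hasDerivAt_circleMap a r θ)
      have h5 := ((h2.const_mul c).neg).cexp
      have h6 := h4.mul h5
      have h7 : (circleMap 0 r θ * Complex.I) • (c * k (circleMap a r θ) * E (circleMap a r θ)) =
          c * Circ_kap k K a r θ * E (circleMap a r θ) := by
        unfold Circ_kap
        rw [indicator_of_mem (show circleMap a r θ ∈ Kᶜ from fun h => hθ.2 (hKΓ h)), smul_eq_mul]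
        ring
      rw [h7] at h6
      refine h6.congr_deriv ?_
      simp only [Function.comp_apply]
      ring
    · exact intervalIntegrable_const
  intro z hz w hw
  obtain ⟨x, hx, rfl⟩ := Circ_par hr hz
  obtain ⟨y, hy, rfl⟩ := Circ_par hr hw
  refine ⟨c * G x - c * G y, ?_, ?_⟩
  · rw [← mul_sub, norm_mul]
    refine mul_le_mul_of_nonneg_left ?_ (norm_nonneg _)
    have h1 : G x - G y = ∫ t in y..x, Circ_kap k K a r t := by
      rw [hG]
      exact intervalIntegral.integral_interval_sub_left (Circ_ii hr hK hk hi hpi hx)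
        (Circ_ii hr hK hk hi hpi hy)
    rw [h1]
    exact Circ_bd hr hε hK hk hi hy hx
  · have h1 := hconst x hx y hy
    have h2 : Complex.exp (c * G x - c * G y) =
        Complex.exp (-(c * G y)) * Complex.exp (c * G x) := by
      rw [← Complex.exp_add]
      congr 1
      ring
    rw [h2, ← mul_assoc, h1, mul_assoc, ← Complex.exp_add, neg_add_cancel, Complex.exp_zero,
      mul_one]

theorem circ_F {F k : ℂ → ℂ} {K Γ : Set ℂ} {a : ℂ} {r ε : ℝ} (hr : 0 < r) (hε : 0 ≤ ε) (hKΓ : K ⊆ Γ)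
    (hK : IsClosed K) (hk : ContinuousOn k Kᶜ) (hc : (Γ ∩ sphere a r).Countable)
    (hF : ContinuousOn F (sphere a r))
    (hd : ∀ z ∈ sphere a r, z ∉ Γ → HasDerivAt F (k z) z)
    (hi : ENNReal.ofReal r * ∫⁻ θ in Ioo (-π) π, ‖Kᶜ.indicator k (circleMap a r θ)‖ₑ ≤
        ENNReal.ofReal ε) :
    ∀ z ∈ sphere a r, ∀ w ∈ sphere a r, ‖F z - F w‖ ≤ ε := by
  have hexc := Circ_exc hr hc
  have hcs : ContinuousOn (fun θ : ℝ => F (circleMap a r θ)) univ :=
    hF.comp (continuous_circleMap a r).continuousOn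
      fun θ _ => circleMap_mem_sphere a hr.le θ
  intro z hz w hw
  obtain ⟨x, hx, rfl⟩ := Circ_par hr hz
  obtain ⟨y, hy, rfl⟩ := Circ_par hr hw
  have h1 := integral_eq_of_hasDerivAt_off_countable
    (fun θ => F (circleMap a r θ)) (Circ_kap k K a r) (a := y) (b := x) hexc
    (hcs.mono (subset_univ _)) (fun θ hθ => by
      have h2 := Circ_der (F := F) (d := 1) hr hKΓ hθ.2 (fun z hz hzΓ => by
        rw [one_mul]
        exact hd z hz hzΓ)
      rwa [one_mul] at h2) (Circ_ii hr hK hk hi hy hx)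
  rw [← h1]
  exact Circ_bd hr hε hK hk hi hy hx

end Pool.Agent.H.MP_4bdd60_an.CI
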