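import Mathlib

/-!
# MP_4bdd60_an, circles: a logarithm off two discs

PROOF. `E` takes on `sphere a ra` values in the closed ball `closedBall e ρ`, `e = E w0`, `ρ < ‖e‖` (maximum on a compact set), which
does not contain `0`. Extend `E` from the sphere to the disc with values in this ball: Tietze, or the cone
`z ↦ e + (‖z - a‖ / ra) * (E (a + ra * (z - a) / ‖z - a‖) - e)`. Same at `b`. This gives a continuous function `ℂ → ℂ` without
zeros which is `E` off the two open discs (glue on the closed sets `closedBall a ra`, `closedBall b rb`, complement of the open balls).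
It has a continuous logarithm: `Complex.exists_continuousOn_eqOn_exp_comp` with `U = univ`.
-/

set_option autoImplicit false

open Set Filter Topology Metric

namespace Pool.Agent.H.MP_4bdd60_an.CI

/-- The function on the circle extends to a function without zeros. -/
private theorem Log_fill {E : ℂ → ℂ} {a : ℂ} {r : ℝ} (hr : 0 < r) (hE : ContinuousOn E (sphere a r))
    (h : ∀ z ∈ sphere a r, ∀ w ∈ sphere a r, ‖E z - E w‖ < ‖E w‖) :
    ∃ G : ℂ → ℂ, Continuous G ∧ (∀ z, G z ≠ 0) ∧ ∀ z ∈ sphere a r, G z = E z := by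
  have hw : a + (r : ℂ) ∈ sphere a r := by
    rw [mem_sphere_iff_norm, add_sub_cancel_left, Complex.norm_real, Real.norm_eq_abs,
      abs_of_pos hr]
  set e : ℂ := E (a + (r : ℂ)) with he
  have he0 : e ≠ 0 := by
    intro h1
    have h2 := h _ hw _ hw
    rw [← he, h1, norm_zero] at h2
    exact absurd h2 (not_lt.2 (norm_nonneg _))
  have hsp : ∀ z ∈ sphere a r, E z / e ∈ Complex.slitPlane := by
    intro z hz
    have h2 := h z hz _ hw
    rw [← he] at h2
    have h3 : ‖E z / e - 1‖ < 1 := by
      rw [div_sub_one he0, norm_div, div_lt_one (norm_pos_iff.2 he0)]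
      exact h2
    apply Complex.ball_one_subset_slitPlane
    rw [mem_ball_iff_norm]
    exact h3
  have hc : ContinuousOn (fun z => Complex.log (E z / e)) (sphere a r) :=
    (hE.div_const e).clog hsp
  obtain ⟨H, hH⟩ := ContinuousMap.exists_restrict_eq (Metric.isClosed_sphere (x := a) (ε := r))
    ⟨_, continuousOn_iff_continuous_domRestrict.1 hc⟩
  refine ⟨fun z => e * Complex.exp (H z), by fun_prop, fun z => mul_ne_zero he0
    (Complex.exp_ne_zero _), fun z hz => ?_⟩
  have h4 : H z = Complex.log (E z / e) := by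
    have h5 := congrArg (fun f => f ⟨z, hz⟩) hH
    simpa using h5
  show e * Complex.exp (H z) = E z
  rw [h4, Complex.exp_log (Complex.slitPlane_ne_zero (hsp z hz)), mul_div_cancel₀ _ he0]

open Classical in
private theorem Log_glue {F G : ℂ → ℂ} {a : ℂ} {r : ℝ} {s : Set ℂ} (hr : 0 < r)
    (hG : Continuous G) (hF : ContinuousOn F (s ∩ (ball a r)ᶜ))
    (hGF : ∀ z ∈ sphere a r, G z = F z) :
    ContinuousOn (fun z => if z ∈ closedBall a r then G z else F z) s := by
  apply ContinuousOn.if
  · rintro z ⟨-, hz⟩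
    have h1 : z ∈ frontier (closedBall a r) := hz
    rw [frontier_closedBall a hr.ne'] at h1
    exact hGF z h1
  · exact hG.continuousOn
  · have h1 : closure {z | ¬ z ∈ closedBall a r} = (ball a r)ᶜ := by
      have h2 : {z | ¬ z ∈ closedBall a r} = (closedBall a r)ᶜ := rfl
      rw [h2, closure_compl, interior_closedBall a hr.ne']
    rw [h1]
    exact hF

theorem log_off {E : ℂ → ℂ} {a b : ℂ} (hE : ContinuousOn E {a, b}ᶜ)
    (h0 : ∀ z, z ≠ a → z ≠ b → E z ≠ 0) {ra rb : ℝ} (hra : 0 < ra) (hrb : 0 < rb)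
    (hd : Disjoint (closedBall a ra) (closedBall b rb))
    (ha : ∀ z ∈ sphere a ra, ∀ w ∈ sphere a ra, ‖E z - E w‖ < ‖E w‖)
    (hb : ∀ z ∈ sphere b rb, ∀ w ∈ sphere b rb, ‖E z - E w‖ < ‖E w‖) :
    ∃ L : ℂ → ℂ, Continuous L ∧ ∀ z, z ∉ ball a ra → z ∉ ball b rb → Complex.exp (L z) = E z := by
  classical
  have hab : ∀ z, z ∈ closedBall a ra → z ∉ closedBall b rb := fun z h1 h2 =>
    (Set.disjoint_left.1 hd) h1 h2
  have hsa : sphere a ra ⊆ ({a, b} : Set ℂ)ᶜ := by
    intro z hz h1
    rcases h1 with h1 | h1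
    · rw [h1, mem_sphere, dist_self] at hz
      exact hra.ne hz
    · rw [Set.mem_singleton_iff] at h1
      exact hab z (sphere_subset_closedBall hz) (h1 ▸ mem_closedBall_self hrb.le)
  have hsb : sphere b rb ⊆ ({a, b} : Set ℂ)ᶜ := by
    intro z hz h1
    rcases h1 with h1 | h1
    · exact hab z (h1 ▸ mem_closedBall_self hra.le) (sphere_subset_closedBall hz)
    · rw [Set.mem_singleton_iff] at h1
      rw [h1, mem_sphere, dist_self] at hz
      exact hrb.ne hz
  obtain ⟨Ga, hGa, hGa0, hGaE⟩ := Log_fill hra (hE.mono hsa) ha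
  obtain ⟨Gb, hGb, hGb0, hGbE⟩ := Log_fill hrb (hE.mono hsb) hb
  have hc1 : ContinuousOn (fun z => if z ∈ closedBall a ra then Ga z else E z)
      ({b} : Set ℂ)ᶜ := by
    refine Log_glue hra hGa (hE.mono ?_) hGaE
    rintro z ⟨h1, h2⟩ h3
    rcases h3 with h3 | h3
    · exact h2 (h3 ▸ mem_ball_self hra)
    · exact h1 h3
  have hc2 : ContinuousOn (fun z => if z ∈ closedBall b rb then Gb z else
      (if z ∈ closedBall a ra then Ga z else E z)) univ := by
    refine Log_glue hrb hGb (hc1.mono ?_) ?_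
    · rintro z ⟨-, h2⟩ h3
      rw [Set.mem_singleton_iff] at h3
      exact h2 (h3 ▸ mem_ball_self hrb)
    · intro z hz
      rw [hGbE z hz, if_neg (fun h1 => hab z h1 (sphere_subset_closedBall hz))]
  have hsc : IsSimplyConnected (univ : Set ℂ) := by
    have h1 : ContractibleSpace (univ : Set ℂ) :=
      (convex_univ (𝕜 := ℝ) (E := ℂ)).contractibleSpace univ_nonempty
    exact (inferInstance : SimplyConnectedSpace (univ : Set ℂ))
  obtain ⟨L, hL, hLe⟩ := Complex.exists_continuousOn_eqOn_exp_comp hsc isOpen_univ hc2 (by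
    rintro ⟨z, -, h1⟩
    beta_reduce at h1
    by_cases h2 : z ∈ closedBall b rb
    · rw [if_pos h2] at h1
      exact hGb0 z h1
    · rw [if_neg h2] at h1
      by_cases h3 : z ∈ closedBall a ra
      · rw [if_pos h3] at h1
        exact hGa0 z h1
      · rw [if_neg h3] at h1
        refine h0 z ?_ ?_ h1
        · rintro rfl
          exact h3 (mem_closedBall_self hra.le)
        · rintro rfl
          exact h2 (mem_closedBall_self hrb.le))
  refine ⟨L, continuousOn_univ.1 hL, fun z hza hzb => ?_⟩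
  have h1 : Complex.exp (L z) = (if z ∈ closedBall b rb then Gb z else
      (if z ∈ closedBall a ra then Ga z else E z)) := hLe (mem_univ z)
  rw [h1]
  by_cases h2 : z ∈ closedBall b rb
  · rw [if_pos h2]
    refine hGbE z ?_
    rw [mem_sphere]
    exact le_antisymm (mem_closedBall.1 h2) (not_lt.1 fun h3 => hzb (mem_ball.2 h3))
  · rw [if_neg h2]
    by_cases h3 : z ∈ closedBall a ra
    · rw [if_pos h3]
      refine hGaE z ?_
      rw [mem_sphere]
      exact le_antisymm (mem_closedBall.1 h3) (not_lt.1 fun h4 => hza (mem_ball.2 h4))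
    · rw [if_neg h3]

end Pool.Agent.H.MP_4bdd60_an.CI
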