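import Mathlib

/-!
# MP_4bdd60_an, circles: paths in the disc, functions with values in `2 π i ℤ`

PROOF. `path_in`: a polygon `p, p/2, (circle of radius 1/2), q/2, q`: for instance `A` = the union of the segments
`{t * p | 1/2 ≤ t ≤ 1}`, `{t * q | 1/2 ≤ t ≤ 1}` and the sphere of radius `1/2` (preconnected: `isPreconnected_sphere` in
real dimension 2, or the image of an interval under `circleMap 0 (1/2)`). `const_int`: `u / (2 π i)` takes integer values and is continuous on a preconnected set: the set of `z ∈ A` with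
`u z = u p` is clopen in `A` (values at distance less than `2 π` are equal), or `IsPreconnected.eqOn_const_of_mapsTo`.
-/

set_option autoImplicit false

open Set Filter Topology Metric

namespace Pool.Agent.H.MP_4bdd60_an.CI

private theorem Path_seg {p x : ℂ} (hp : p ∈ sphere (0 : ℂ) 1) (hx : x ∈ sphere (0 : ℂ) 1)
    (hpx : p ≠ x) {t : ℝ} (_ : t ≤ 1) : (t : ℂ) * p ≠ x ∨ t < 0 := by
  rcases lt_or_ge t 0 with h0 | h0
  · exact Or.inr h0
  · left
    intro h
    rw [mem_sphere_zero_iff_norm] at hp hx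
    have h3 := congrArg norm h
    rw [norm_mul, hp, hx, mul_one, Complex.norm_real, Real.norm_of_nonneg h0] at h3
    rw [h3, Complex.ofReal_one, one_mul] at h
    exact hpx h

private theorem Path_one {p x y : ℂ} (hp : p ∈ sphere (0 : ℂ) 1) (hx : x ∈ sphere (0 : ℂ) 1)
    (hy : y ∈ sphere (0 : ℂ) 1) (hpx : p ≠ x) (hpy : p ≠ y) :
    ∃ S : Set ℂ, IsPreconnected S ∧ IsCompact S ∧ p ∈ S ∧ (2⁻¹ : ℂ) * p ∈ S ∧
      S ⊆ closedBall 0 1 \ {0, x, y} := by
  have hc : Continuous fun t : ℝ => (t : ℂ) * p := by fun_prop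
  refine ⟨(fun t : ℝ => (t : ℂ) * p) '' Icc (2⁻¹ : ℝ) 1, isPreconnected_Icc.image _ hc.continuousOn,
    isCompact_Icc.image hc, ⟨1, ⟨by norm_num, le_refl _⟩, by simp⟩,
    ⟨2⁻¹, ⟨le_refl _, by norm_num⟩, by simp⟩, ?_⟩
  rintro _ ⟨t, ⟨h1, h2⟩, rfl⟩
  have h0 : 0 < t := lt_of_lt_of_le (by norm_num) h1
  have hn : ‖(t : ℂ) * p‖ = t := by
    rw [norm_mul, mem_sphere_zero_iff_norm.1 hp, mul_one, Complex.norm_real,
      Real.norm_of_nonneg h0.le]
  refine ⟨?_, ?_⟩
  · rw [mem_closedBall_zero_iff]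
    show ‖(t : ℂ) * p‖ ≤ 1
    rw [hn]
    exact h2
  · rintro (h | h | h)
    · have h3 : ‖(t : ℂ) * p‖ = 0 := by
        rw [norm_eq_zero]
        exact h
      rw [hn] at h3
      linarith
    · rcases Path_seg hp hx hpx h2 with h4 | h4
      · exact h4 h
      · linarith
    · rcases Path_seg hp hy hpy h2 with h4 | h4
      · exact h4 h
      · linarith

/-- A preconnected compact set in the closed disc without the centre which contains two points of the circle and avoids two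
others. -/
theorem path_in {p q x y : ℂ} (hp : p ∈ sphere (0 : ℂ) 1) (hq : q ∈ sphere (0 : ℂ) 1)
    (hx : x ∈ sphere (0 : ℂ) 1) (hy : y ∈ sphere (0 : ℂ) 1) (hpx : p ≠ x) (hpy : p ≠ y) (hqx : q ≠ x) (hqy : q ≠ y) :
    ∃ A : Set ℂ, IsPreconnected A ∧ IsCompact A ∧ p ∈ A ∧ q ∈ A ∧ A ⊆ closedBall 0 1 \ {0, x, y} := by
  obtain ⟨S, s1, s2, s3, s4, s5⟩ := Path_one hp hx hy hpx hpy
  obtain ⟨T, t1, t2, t3, t4, t5⟩ := Path_one hq hx hy hqx hqy
  have hC : IsPreconnected (sphere (0 : ℂ) 2⁻¹) := isPreconnected_sphere (by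
    rw [Complex.rank_real_complex]
    norm_num) _ _
  have hm : ∀ r : ℂ, r ∈ sphere (0 : ℂ) 1 → (2⁻¹ : ℂ) * r ∈ sphere (0 : ℂ) 2⁻¹ := by
    intro r hr
    rw [mem_sphere_zero_iff_norm] at hr ⊢
    rw [norm_mul, hr, mul_one, norm_inv, Complex.norm_ofNat]
  refine ⟨(S ∪ sphere (0 : ℂ) 2⁻¹) ∪ T, ?_, ?_, Or.inl (Or.inl s3), Or.inr t3, ?_⟩
  · refine IsPreconnected.union ((2⁻¹ : ℂ) * q) (Or.inr (hm q hq)) t4 ?_ t1
    exact IsPreconnected.union ((2⁻¹ : ℂ) * p) s4 (hm p hp) s1 hC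
  · exact (s2.union (isCompact_sphere _ _)).union t2
  · refine union_subset (union_subset s5 ?_) t5
    intro z hz
    rw [mem_sphere_zero_iff_norm] at hz
    refine ⟨?_, ?_⟩
    · rw [mem_closedBall_zero_iff, hz]
      norm_num
    · rw [mem_sphere_zero_iff_norm] at hx hy
      rintro (h | h | h)
      · rw [h, norm_zero] at hz
        norm_num at hz
      · rw [h, hx] at hz
        norm_num at hz
      · rw [mem_singleton_iff.1 h, hy] at hz
        norm_num at hz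

theorem segment_in {p q x y : ℂ} (hp : p ∈ sphere (0 : ℂ) 1) (hq : q ∈ sphere (0 : ℂ) 1)
    (hx : x ∈ sphere (0 : ℂ) 1) (hy : y ∈ sphere (0 : ℂ) 1) (hpx : p ≠ x) (hpy : p ≠ y) (hqx : q ≠ x) (hqy : q ≠ y) :
    ∃ A : Set ℂ, IsPreconnected A ∧ IsCompact A ∧ p ∈ A ∧ q ∈ A ∧ A ⊆ closedBall 0 1 \ {x, y} := by
  obtain ⟨A, h1, h2, h3, h4, h5⟩ := path_in hp hq hx hy hpx hpy hqx hqy
  exact ⟨A, h1, h2, h3, h4, fun z hz => ⟨(h5 hz).1, fun h => (h5 hz).2 (Or.inr h)⟩⟩

/-- A continuous function with values in `2 π i ℤ` on a preconnected set is constant. -/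
theorem const_int {A : Set ℂ} (hA : IsPreconnected A) {u : ℂ → ℂ} (hu : ContinuousOn u A)
    (h : ∀ z ∈ A, Complex.exp (u z) = 1) {p q : ℂ} (hp : p ∈ A) (hq : q ∈ A) : u p = u q := by
  have hv : ∀ z ∈ A, ∃ n : ℤ, (u z).im = n * (2 * Real.pi) ∧ (u z).re = 0 := by
    intro z hz
    obtain ⟨n, hn⟩ := Complex.exp_eq_one_iff.1 (h z hz)
    refine ⟨n, ?_, ?_⟩
    · rw [hn]
      simp
    · rw [hn]
      simp
  have key : ∀ a ∈ A, ∀ b ∈ A, ¬ (u a).im < (u b).im := by
    intro a ha b hb hab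
    have hg : ContinuousOn (fun z => (u z).im) A := Complex.continuous_im.comp_continuousOn hu
    obtain ⟨n, hn, -⟩ := hv a ha
    obtain ⟨m, hm, -⟩ := hv b hb
    have hpi := Real.pi_pos
    have hnm : n < m := by
      rw [hn, hm] at hab
      have h3 := lt_of_mul_lt_mul_right hab (by positivity)
      exact_mod_cast h3
    have hnm' : (n : ℝ) + 1 ≤ m := by exact_mod_cast hnm
    have hmem : (u a).im + Real.pi ∈ Icc ((u a).im) ((u b).im) := by
      refine ⟨by linarith, ?_⟩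
      rw [hn, hm]
      nlinarith
    obtain ⟨z, hz, hzz⟩ := hA.intermediate_value ha hb hg hmem
    obtain ⟨l, hl, -⟩ := hv z hz
    have h5 : (u z).im = (u a).im + Real.pi := hzz
    rw [hl, hn] at h5
    have h6 : (l : ℝ) * 2 = n * 2 + 1 := by
      have h7 : ((l : ℝ) * 2 - (n * 2 + 1)) * Real.pi = 0 := by linear_combination h5
      rcases mul_eq_zero.1 h7 with h8 | h8
      · linarith
      · exact absurd h8 hpi.ne'
    have h9 : l * 2 = n * 2 + 1 := by exact_mod_cast h6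
    omega
  obtain ⟨n, -, hn⟩ := hv p hp
  obtain ⟨m, -, hm⟩ := hv q hq
  refine Complex.ext (hn.trans hm.symm) ?_
  exact le_antisymm (not_lt.1 (key q hq p hp)) (not_lt.1 (key p hp q hq))

end Pool.Agent.H.MP_4bdd60_an.CI
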