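import Pool.Agent.H.MP_4bdd60_an.Core2
import Pool.Agent.H.MP_4bdd60_an.CI.Area
import Pool.Agent.H.MP_4bdd60_an.CI.Circ
import Pool.Agent.H.MP_4bdd60_an.CI.Log
import Pool.Agent.H.MP_4bdd60_an.CI.BuildE
import Pool.Agent.H.MP_4bdd60_an.CI.Path

/-!
# MP_4bdd60_an, circles: no monodromy

PROOF of `const_circ`. Suppose `c = cI - cJ ≠ 0`; `c0 = 2 π i / c`. Replace `Gm` by `Gm + cI` (`Prim.add_const`): then
`Gp = Gm ∘ g` on `I` and `Gp - Gm ∘ g = -c` on `J`, so `exp (c0 Gp) = exp (c0 Gm ∘ g)` on both; `buildE` gives `E`.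
`ζ ∈ I`, `ξ ∈ J` (`neI`, `neJ`). The segment `[ζ, ξ]` in `closedBall 0 1` avoids `α, β` (strict convexity: its inner points are in the open
ball; the end points are not `α, β`), so `P = φ '' [ζ, ξ]` is compact, connected and avoids `φ α, φ β`. In the same way a path
in `closedBall 0 1 \ {0, g α, g β}` from `g ζ` to `g ξ` (e.g. through the circle of radius `1/2`; `path_in`) gives a compact connected
`P' = χ '' ...` from `φ ζ` to `φ ξ` avoiding `φ α`, `φ β`. Choose `δ` such that `P`, `P'` do not meet `ball a δ`, `ball b δ` and the closed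
balls of radius `δ` are disjoint. `good_circle` and `circ_E` with `ε` such that `exp (‖c0‖ ε) - 1 < 1`: radii `ra, rb < δ` with
`‖E z - E w‖ < ‖E w‖` on both spheres. `log_off`: `L`. On `[ζ, ξ]` the continuous function `w ↦ L (φ w) - c0 * Gp w` has values in
`2 π i ℤ`, so it has the same value at `ζ` and `ξ`; so has `u ↦ L (χ u) - c0 * Gm u` on the other path at `g ζ` and `g ξ`. Since
`Gp ζ = Gm (g ζ)` and `φ ζ = χ (g ζ)`, `φ ξ = χ (g ξ)`: `c0 * Gp ξ = c0 * Gm (g ξ)`, so `c = 0`.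
-/

set_option autoImplicit false

open Set Filter Topology Metric MeasureTheory
open scoped ENNReal Real

namespace Pool.Agent.H.MP_4bdd60_an.CI

variable {φ χ : ℂ → ℂ} {α β : ℂ} {I J : Set ℂ} {g : ℂ → ℂ} {f : ℂ ≃ₜ ℂ} {k1 k2 Gp Gm : ℂ → ℂ}

private theorem Const_near {E k : ℂ → ℂ} {K Γ : Set ℂ} {a b c : ℂ} {r : ℝ} (hr : 0 < r)
    (hKΓ : K ⊆ Γ) (hK : IsClosed K) (hk : ContinuousOn k Kᶜ) (hc : (Γ ∩ sphere a r).Countable)
    (hE : ContinuousOn E {a, b}ᶜ) (h0 : ∀ z, E z ≠ 0) (hab : r < dist a b)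
    (hd : ∀ z, z ∉ Γ → HasDerivAt E (c * k z * E z) z)
    (hi : ENNReal.ofReal r * ∫⁻ θ in Ioo (-π) π, ‖Kᶜ.indicator k (circleMap a r θ)‖ₑ ≤
        ENNReal.ofReal (1 / (4 * (‖c‖ + 1)))) :
    ∀ z ∈ sphere a r, ∀ w ∈ sphere a r, ‖E z - E w‖ < ‖E w‖ := by
  intro z hz w hw
  have hn : 0 ≤ ‖c‖ := norm_nonneg c
  have hε : (0 : ℝ) ≤ 1 / (4 * (‖c‖ + 1)) := by positivity
  have hEs : ContinuousOn E (sphere a r) := by
    refine hE.mono fun y hy => ?_
    rintro (h | h)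
    · rw [h, mem_sphere, dist_self] at hy
      exact hr.ne hy
    · have h' : y = b := h
      rw [h', mem_sphere, dist_comm] at hy
      exact hab.ne' hy
  obtain ⟨u, hu, he⟩ := circ_E hr hε hKΓ hK hk hc hEs (fun y _ hy => hd y hy) hi z hz w hw
  have h1 : ‖u‖ ≤ 1 / 4 := by
    refine hu.trans ?_
    rw [mul_one_div, div_le_div_iff₀ (by positivity) (by norm_num)]
    linarith
  have h2 : ‖Complex.exp u - 1‖ ≤ 2 * ‖u‖ :=
    Complex.norm_exp_sub_one_le (h1.trans (by norm_num))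
  have h3 : E z - E w = E w * (Complex.exp u - 1) := by rw [he]; ring
  rw [h3, norm_mul]
  have h4 : 0 < ‖E w‖ := norm_pos_iff.2 (h0 w)
  calc ‖E w‖ * ‖Complex.exp u - 1‖ ≤ ‖E w‖ * (1 / 2) :=
        mul_le_mul_of_nonneg_left (by linarith) h4.le
    _ < ‖E w‖ := by linarith

private theorem Const_avoid {Q : Set ℂ} (hQ : IsCompact Q) {a b : ℂ} (ha : a ∉ Q) (hb : b ∉ Q)
    (hab : a ≠ b) : ∃ δ : ℝ, 0 < δ ∧ (∀ z ∈ Q, z ∉ ball a δ) ∧ (∀ z ∈ Q, z ∉ ball b δ) ∧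
      2 * δ ≤ dist a b := by
  obtain ⟨d1, h1, h2⟩ := Metric.isOpen_iff.1 hQ.isClosed.isOpen_compl a ha
  obtain ⟨d2, h3, h4⟩ := Metric.isOpen_iff.1 hQ.isClosed.isOpen_compl b hb
  have h5 : 0 < dist a b := dist_pos.2 hab
  refine ⟨min (min d1 d2) (dist a b / 2), lt_min (lt_min h1 h3) (by linarith), ?_, ?_, ?_⟩
  · intro z hz hz'
    exact h2 (ball_subset_ball ((min_le_left _ _).trans (min_le_left _ _)) hz') hz
  · intro z hz hz'
    exact h4 (ball_subset_ball ((min_le_left _ _).trans (min_le_right _ _)) hz') hz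
  · have := min_le_right (min d1 d2) (dist a b / 2)
    linarith

theorem const_circ (hM : Marked φ χ α β I J g)
    (hF : Form (arc φ I α β) (arc φ J α β) f k1 k2)
    (hGp : Prim φ ∅ {α, β} (arc φ I α β) (arc φ J α β) f k1 k2 Gp)
    (hGm : Prim χ {0} {g α, g β} (arc φ I α β) (arc φ J α β) f k1 k2 Gm)
    (ha : Good (φ '' sphere 0 1) (φ α)) (hb : Good (φ '' sphere 0 1) (φ β)) {cI cJ : ℂ}
    (hcI : ∀ z ∈ I, Gp z - Gm (g z) = cI) (hcJ : ∀ z ∈ J, Gp z - Gm (g z) = cJ) : cI = cJ := by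
  by_contra hne
  have hc : cI - cJ ≠ 0 := sub_ne_zero.2 hne
  set c0 : ℂ := 2 * π * Complex.I / (cI - cJ) with hc0
  have hc0c : c0 * (cI - cJ) = 2 * π * Complex.I := div_mul_cancel₀ _ hc
  have hc00 : c0 ≠ 0 := by
    intro h
    rw [h, zero_mul] at hc0c
    exact Complex.two_pi_I_ne_zero hc0c.symm
  have hGm' : Prim χ {0} {g α, g β} (arc φ I α β) (arc φ J α β) f k1 k2 (fun w => Gm w + cI) :=
    hGm.add_const cI
  have hsub : ∀ z ∈ I ∪ J, z ∈ sphere (0 : ℂ) 1 := by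
    intro z hz
    rw [← hM.union]
    exact Or.inl hz
  have hg : ∀ z ∈ sphere (0 : ℂ) 1 \ {α, β},
      Complex.exp (c0 * Gp z) = Complex.exp (c0 * (Gm (g z) + cI)) := by
    rintro z ⟨hz, hzn⟩
    have hz' : z ∈ I ∪ J := by
      rw [← hM.union] at hz
      rcases hz with hz | hz
      · exact hz
      · exact absurd hz hzn
    rcases hz' with hz | hz
    · rw [show Gp z = Gm (g z) + cI by rw [← hcI z hz]; ring]
    · rw [show c0 * Gp z = c0 * (Gm (g z) + cI) - c0 * (cI - cJ) by rw [← hcJ z hz]; ring,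
        hc0c, Complex.exp_sub, Complex.exp_two_pi_mul_I, div_one]
  obtain ⟨E, hE1, hE2, hE0, hEc, hEd⟩ := buildE hM hF hGp hGm' hg
  obtain ⟨ζ, hζ⟩ := hM.neI
  obtain ⟨ξ, hξ⟩ := hM.neJ
  have hζs := hsub ζ (Or.inl hζ)
  have hξs := hsub ξ (Or.inr hξ)
  have hζα : ζ ≠ α := fun h => hM.αI (h ▸ hζ)
  have hζβ : ζ ≠ β := fun h => hM.βI (h ▸ hζ)
  have hξα : ξ ≠ α := fun h => hM.αJ (h ▸ hξ)
  have hξβ : ξ ≠ β := fun h => hM.βJ (h ▸ hξ)
  have hgne : ∀ x ∈ sphere (0 : ℂ) 1, ∀ y ∈ sphere (0 : ℂ) 1, x ≠ y → g x ≠ g y := by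
    intro x hx y hy hxy h
    apply hxy
    refine hM.φ_inj (sphere_subset_closedBall hx) (sphere_subset_closedBall hy) ?_
    rw [← hM.g_eq x hx, ← hM.g_eq y hy, h]
  obtain ⟨A, hA1, hA2, hA3, hA4, hA5⟩ := segment_in hζs hξs hM.α_mem hM.β_mem hζα hζβ hξα hξβ
  obtain ⟨A', hB1, hB2, hB3, hB4, hB5⟩ := path_in (hM.g_maps ζ hζs) (hM.g_maps ξ hξs)
    (hM.g_maps α hM.α_mem) (hM.g_maps β hM.β_mem) (hgne _ hζs _ hM.α_mem hζα)
    (hgne _ hζs _ hM.β_mem hζβ) (hgne _ hξs _ hM.α_mem hξα) (hgne _ hξs _ hM.β_mem hξβ)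
  have hφA : ContinuousOn φ A := hM.φ_cont.mono fun z hz => (hA5 hz).1
  have hχA : ContinuousOn χ A' := hM.χ_cont.mono fun z hz =>
    ⟨(hB5 hz).1, fun h => (hB5 hz).2 (Or.inl h)⟩
  have hQ : IsCompact (φ '' A ∪ χ '' A') := (hA2.image_of_continuousOn hφA).union
    (hB2.image_of_continuousOn hχA)
  have hav : ∀ x, x = α ∨ x = β → φ x ∉ φ '' A ∪ χ '' A' := by
    intro x hx
    have hxs : x ∈ sphere (0 : ℂ) 1 := by
      rcases hx with rfl | rfl
      · exact hM.α_mem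
      · exact hM.β_mem
    rintro (⟨y, hy, h⟩ | ⟨y, hy, h⟩)
    · have h1 := hM.φ_inj (hA5 hy).1 (sphere_subset_closedBall hxs) h
      exact (hA5 hy).2 (h1 ▸ hx)
    · rw [← hM.g_eq x hxs] at h
      have hg0 : g x ∈ closedBall (0 : ℂ) 1 \ {0} := by
        refine ⟨sphere_subset_closedBall (hM.g_maps x hxs), ?_⟩
        intro h0
        have h2 := hM.g_maps x hxs
        rw [mem_singleton_iff.1 h0] at h2
        simp at h2
      have h1 := hM.χ_inj ⟨(hB5 hy).1, fun h => (hB5 hy).2 (Or.inl h)⟩ hg0 h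
      refine (hB5 hy).2 (Or.inr ?_)
      rw [h1]
      rcases hx with rfl | rfl
      · exact Or.inl rfl
      · exact Or.inr rfl
  have hab := ab_ne hM
  obtain ⟨δ, hδ, hδa, hδb, hδab⟩ := Const_avoid hQ (hav α (Or.inl rfl)) (hav β (Or.inr rfl)) hab
  have hKc := (isCompact_arcI hM).isClosed
  have hk := hF.hol1.continuousOn
  have hε : (0 : ℝ) < 1 / (4 * (‖c0‖ + 1)) := by positivity
  obtain ⟨ra, hra, hraδ, hra1, hra2⟩ := good_circle hKc hk hF.fin ha hε hδ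
  obtain ⟨rb, hrb, hrbδ, hrb1, hrb2⟩ := good_circle hKc hk hF.fin hb hε hδ
  have hna := Const_near (b := φ β) hra (arc_sub hM).1 hKc hk hra1 hEc hE0 (by linarith) hEd hra2
  have hnb := Const_near (b := φ α) hrb (arc_sub hM).1 hKc hk hrb1
    (by rwa [pair_comm]) hE0 (by rw [dist_comm]; linarith) hEd hrb2
  obtain ⟨L, hL1, hL2⟩ := log_off hEc (fun z _ _ => hE0 z) hra hrb
    (closedBall_disjoint_closedBall (by linarith)) hna hnb
  have hLQ : ∀ z ∈ φ '' A ∪ χ '' A', Complex.exp (L z) = E z := fun z hz =>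
    hL2 z (fun h => hδa z hz (ball_subset_ball hraδ.le h))
      (fun h => hδb z hz (ball_subset_ball hrbδ.le h))
  have e1 : L (φ ζ) - c0 * Gp ζ = L (φ ξ) - c0 * Gp ξ := by
    refine const_int hA1 (u := fun w => L (φ w) - c0 * Gp w) ?_ (fun w hw => ?_) hA3 hA4
    · refine (hL1.comp_continuousOn hφA).sub (continuousOn_const.mul (hGp.cont.mono ?_))
      intro z hz
      refine ⟨(hA5 hz).1, ?_⟩
      rw [empty_union]
      exact (hA5 hz).2
    · show Complex.exp (L (φ w) - c0 * Gp w) = 1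
      rw [Complex.exp_sub, hLQ _ (Or.inl ⟨w, hw, rfl⟩), hE1 w (hA5 hw)]
      exact div_self (Complex.exp_ne_zero _)
  have e2 : L (χ (g ζ)) - c0 * (Gm (g ζ) + cI) = L (χ (g ξ)) - c0 * (Gm (g ξ) + cI) := by
    refine const_int hB1 (u := fun w => L (χ w) - c0 * (Gm w + cI)) ?_ (fun w hw => ?_) hB3 hB4
    · refine (hL1.comp_continuousOn hχA).sub (continuousOn_const.mul (hGm'.cont.mono ?_))
      intro z hz
      exact ⟨(hB5 hz).1, fun h => (hB5 hz).2 h⟩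
    · show Complex.exp (L (χ w) - c0 * (Gm w + cI)) = 1
      rw [Complex.exp_sub, hLQ _ (Or.inr ⟨w, hw, rfl⟩), hE2 w (hB5 hw)]
      exact div_self (Complex.exp_ne_zero _)
  rw [hM.g_eq ζ hζs, hM.g_eq ξ hξs] at e2
  have e3 : c0 * (cI - cJ) = 0 := by
    have h1 := hcI ζ hζ
    have h2 := hcJ ξ hξ
    linear_combination e2 - e1 - c0 * h1 + c0 * h2
  rcases mul_eq_zero.1 e3 with h | h
  · exact hc00 h
  · exact hc h

end Pool.Agent.H.MP_4bdd60_an.CI
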