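import Pool.Agent.H.MP_4bdd60_an.G2
import Pool.Agent.H.MP_4bdd60_an.CI.Area
import Pool.Agent.H.MP_4bdd60_an.CI.Circ

/-!
# MP_4bdd60_an, circles: the limit at a marked point
-/

set_option autoImplicit false

open Set Filter Topology Metric MeasureTheory
open scoped ENNReal Real

namespace Pool.Agent.H.MP_4bdd60_an.CI

theorem limit_circ {a b : ℂ} (hab : a ≠ b) {F k : ℂ → ℂ} {K Γ : Set ℂ} (hKΓ : K ⊆ Γ) (hK : IsClosed K)
    (hk : ContinuousOn k Kᶜ) (hfin : ∀ R : ℝ, ∫⁻ z in Kᶜ ∩ ball 0 R, ‖k z‖ₑ ^ 2 < ∞) (hg : Good Γ a)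
    (hF : ContinuousOn F {a, b}ᶜ) (hFo : ∀ z, z ≠ a → z ≠ b → ∀ N ∈ 𝓝 z, F '' N ∈ 𝓝 (F z))
    (hd : ∀ z, z ∉ Γ → HasDerivAt F (k z) z) : ∃ A : ℂ, Tendsto F (𝓝[≠] a) (𝓝 A) := by
  refine ext_at (U0 := {b}ᶜ) (ρ := fun s => a + (s : ℂ)) (δ := 1) isOpen_compl_singleton hab ?_ ?_ ?_ ?_
  · refine hF.mono ?_
    rintro z ⟨hz, hza⟩
    simp only [mem_compl_iff, mem_insert_iff, mem_singleton_iff, not_or]
    exact ⟨hza, hz⟩
  · rintro z ⟨hz, hza⟩
    exact hFo z hza hz
  · exact (continuous_const.add Complex.continuous_ofReal).continuousOn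
  · intro ε hε U hU
    obtain ⟨η, hη, hηU⟩ := Metric.nhds_basis_closedBall.mem_iff.1 hU
    have hdab : 0 < dist b a := dist_pos.2 hab.symm
    obtain ⟨r, hr, hrm, hrc, hri⟩ := good_circle (δ := min η (min (dist b a) 1)) hK hk hfin hg hε
      (lt_min hη (lt_min hdab one_pos))
    have hr1 : r < η := hrm.trans_le (min_le_left _ _)
    have hr2 : r < dist b a := hrm.trans_le ((min_le_right _ _).trans (min_le_left _ _))
    have hr3 : r < 1 := hrm.trans_le ((min_le_right _ _).trans (min_le_right _ _))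
    have hcl : closure (ball a r) = closedBall a r := closure_ball a hr.ne'
    have hsph : closure (ball a r) \ ball a r = sphere a r := by
      rw [hcl]
      exact closedBall_sdiff_ball
    have hsa : ∀ z ∈ sphere a r, z ≠ a ∧ z ≠ b := by
      intro z hz
      rw [mem_sphere] at hz
      refine ⟨fun e => ?_, fun e => ?_⟩
      · rw [e, dist_self] at hz
        exact hr.ne hz
      · rw [e] at hz
        exact hr2.ne hz.symm
    have hnorm : ∀ s : ℝ, dist (a + (s : ℂ)) a = |s| := by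
      intro s
      rw [dist_eq_norm, add_sub_cancel_left, Complex.norm_real, Real.norm_eq_abs]
    have hcF : ContinuousOn F (sphere a r) := by
      refine hF.mono fun z hz => ?_
      simp only [mem_compl_iff, mem_insert_iff, mem_singleton_iff, not_or]
      exact hsa z hz
    have hrs : a + (r : ℂ) ∈ sphere a r := by
      rw [mem_sphere, hnorm, abs_of_pos hr]
    refine ⟨ball a r, F (a + (r : ℂ)), r, isOpen_ball, mem_ball_self hr, ?_, ?_, hr, hr3, ?_, ?_, ?_⟩
    · rw [hcl]
      exact (closedBall_subset_closedBall hr1.le).trans hηU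
    · intro z hz
      rw [hsph] at hz
      exact circ_F hr hε.le hKΓ hK hk hrc hcF (fun z _ hz => hd z hz) hri z hz _ hrs
    · rw [hsph]
      exact hrs
    · intro s hs hsr
      rw [mem_ball, hnorm, abs_of_pos hs]
      exact hsr
    · intro s hs _
      rw [mem_ball, hnorm, abs_of_pos (hr.trans_le hs)]
      exact not_lt.2 hs

end Pool.Agent.H.MP_4bdd60_an.CI
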